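import Pool.Agent.H8.MC.GTargets
import Pool.Agent.H54.MC.CONN

/-!
# From branch sets of bounded size to branch sets of one size
-/

set_option autoImplicit false

namespace Pool.Agent.H88.MF

open Pool.Agent.H8.MC Pool.Agent.H69.VR Pool.Agent.H8.VR Pool.Agent.H69.Sp

theorem exq_div {B q t : ℕ} (ht : t < B) : (B * q + t) / B = q ∧ (B * q + t) % B = t := by
  have hB : 0 < B := by omega
  constructor
  · rw [Nat.mul_add_div hB, Nat.div_eq_of_lt ht, add_zero]
  · rw [Nat.mul_add_mod_self_left, Nat.mod_eq_of_lt ht]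

theorem exq_pred {B x : ℕ} (hB : 0 < B) (hx : x % B ≠ 0) : (x - 1) / B = x / B := by
  have h1 := Nat.div_add_mod x B
  have h2 := Nat.mod_lt x hB
  have h3 : x - 1 = B * (x / B) + (x % B - 1) := by omega
  rw [h3]
  exact (exq_div (by omega)).1

theorem exq_succ {B : ℕ} (x : ℕ) : (x + 1) / B = x / B ∨ (x + 1) / B = x / B + 1 := by
  rw [Nat.succ_div]
  split_ifs
  · exact Or.inr rfl
  · exact Or.inl rfl

/-- a set with a rooted tree -/
theorem exq_tree {V : Type} (G : SimpleGraph V) (K : Set V) (c₀ : V) (h₀ : c₀ ∈ K) (rk : V → ℕ)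
    (par : ∀ c ∈ K, c ≠ c₀ → ∃ c' ∈ K, G.Adj c c' ∧ rk c' < rk c) : (G.induce K).Connected := by
  rw [Pool.Agent.H54.MC.pf_con]
  refine ⟨⟨c₀, h₀⟩, ?_⟩
  rintro Y ⟨a, haY, haK⟩ hcl
  have h1 : ∀ n, ∀ c ∈ K, rk c = n → (c ∈ Y → c₀ ∈ Y) ∧ (c₀ ∈ Y → c ∈ Y) := by
    intro n
    induction n using Nat.strong_induction_on with
    | _ n ih =>
      intro c hc hn
      by_cases hcc : c = c₀
      · rw [hcc]
        exact ⟨id, id⟩
      · obtain ⟨c', hc', hadj, hlt⟩ := par c hc hcc
        have h2 := ih (rk c') (by omega) c' hc' rfl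
        exact ⟨fun h => h2.1 (hcl c c' h hc hc' hadj), fun h => hcl c' c (h2.2 h) hc' hc hadj.symm⟩
  have h3 : c₀ ∈ Y := (h1 _ a haK rfl).1 haY
  intro c hc
  exact (h1 _ c hc rfl).2 h3

/-- the union of the branch sets over a connected set of cells is connected -/
theorem exq_union {V : Type} {r : ℕ} {G : SimpleGraph V} {π : V → Option (Fin r × Fin r)}
    (hM : GMod r G π) (K : Set (Fin r × Fin r)) (hK : ((grid r).induce K).Connected) :
    (G.induce {v | ∃ c ∈ K, π v = some c}).Connected := by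
  rw [Pool.Agent.H54.MC.pf_con] at hK ⊢
  obtain ⟨⟨c₀, hc₀⟩, hK2⟩ := hK
  have hne : ∀ c, ∃ v, π v = some c := by
    intro c
    obtain ⟨⟨v, hv⟩⟩ := (hM.conn c).nonempty
    exact ⟨v, hv⟩
  constructor
  · obtain ⟨v, hv⟩ := hne c₀
    exact ⟨v, c₀, hc₀, hv⟩
  · rintro Y ⟨a, haY, c₁, hc₁, ha⟩ hcl
    -- branch sets are contained in `Y` if they meet it
    have hbr : ∀ c ∈ K, (∃ v ∈ Y, π v = some c) → ∀ v, π v = some c → v ∈ Y := by
      intro c hc hex
      have h1 := hM.conn c
      rw [Pool.Agent.H54.MC.pf_con] at h1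
      obtain ⟨v, hvY, hv⟩ := hex
      intro w hw
      refine h1.2 Y ⟨v, hvY, hv⟩ ?_ w hw
      intro x y hxY hx hy hxy
      exact hcl x y hxY ⟨c, hc, hx⟩ ⟨c, hc, hy⟩ hxy
    have h2 := hK2 {c | ∃ v ∈ Y, π v = some c} ⟨c₁, ⟨a, haY, ha⟩, hc₁⟩ (by
      rintro c c' hcY hc hc' hadj
      obtain ⟨u, v, hu, hv, huv⟩ := hM.one c c' hadj
      have h3 : u ∈ Y := hbr c hc hcY u hu
      exact ⟨v, hcl u v h3 ⟨c, hc, hu⟩ ⟨c', hc', hv⟩ huv, hv⟩)
    rintro v ⟨c, hc, hv⟩
    exact hbr c hc (h2 c hc) v hv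

theorem pf_EXQ (hGRW : T_GRW) : T_EXQ := by
  classical
  intro C hC L hL h
  set B := 2 * L with hBdef
  have hB : 0 < B := by omega
  refine ⟨B * B, Nat.mul_pos hB hB, ?_⟩
  intro m hm
  obtain ⟨n, G, π, hG, hM, hπne, hcard⟩ := h (B * m)
  -- cells and blocks
  have hlt : ∀ (a : Fin m) (i : ℕ), i < B → B * a.val + i < B * m := by
    intro a i hi
    have h1 : B * a.val + B ≤ B * m := by
      have h2 : a.val + 1 ≤ m := a.2
      calc B * a.val + B = B * (a.val + 1) := by ring
        _ ≤ B * m := Nat.mul_le_mul_left _ h2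
    omega
  let cell : Fin m × Fin m → ℕ → ℕ → Fin (B * m) × Fin (B * m) := fun p i j =>
    (if hi : i < B then ⟨B * p.1.val + i, hlt p.1 i hi⟩ else ⟨B * p.1.val, hlt p.1 0 hB⟩,
      if hj : j < B then ⟨B * p.2.val + j, hlt p.2 j hj⟩ else ⟨B * p.2.val, hlt p.2 0 hB⟩)
  have cell1 : ∀ p i j, i < B → ((cell p i j).1.val = B * p.1.val + i) := by
    intro p i j hi
    simp only [cell, dif_pos hi]
  have cell2 : ∀ p i j, j < B → ((cell p i j).2.val = B * p.2.val + j) := by
    intro p i j hj
    simp only [cell, dif_pos hj]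
  let blk : Fin (B * m) × Fin (B * m) → Fin m × Fin m := fun c =>
    (⟨c.1.val / B, Nat.div_lt_of_lt_mul c.1.2⟩, ⟨c.2.val / B, Nat.div_lt_of_lt_mul c.2.2⟩)
  have blk1 : ∀ c, (blk c).1.val = c.1.val / B := fun _ => rfl
  have blk2 : ∀ c, (blk c).2.val = c.2.val / B := fun _ => rfl
  have blk_cell : ∀ p i j, i < B → j < B → blk (cell p i j) = p := by
    intro p i j hi hj
    apply Prod.ext
    · apply Fin.ext
      rw [blk1, cell1 p i j hi]
      exact (exq_div hi).1
    · apply Fin.ext
      rw [blk2, cell2 p i j hj]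
      exact (exq_div hj).1
  have cell_of : ∀ c, cell (blk c) (c.1.val % B) (c.2.val % B) = c := by
    intro c
    apply Prod.ext
    · apply Fin.ext
      rw [cell1 _ _ _ (Nat.mod_lt _ hB), blk1]
      exact Nat.div_add_mod _ _
    · apply Fin.ext
      rw [cell2 _ _ _ (Nat.mod_lt _ hB), blk2]
      exact Nat.div_add_mod _ _
  -- connected sets of cells
  have hconn : ∀ (p : Fin m × Fin m) (P : ℕ → ℕ → Prop), P 0 0 →
      (∀ i j, P (i + 1) j → P i j) → (∀ j, P 0 (j + 1) → P 0 j) →
      ((grid (B * m)).induce {c | blk c = p ∧ P (c.1.val % B) (c.2.val % B)}).Connected := by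
    intro p P h00 h10 h01
    refine exq_tree _ _ (cell p 0 0) ⟨blk_cell p 0 0 hB hB, ?_⟩ (fun c => c.1.val + c.2.val) ?_
    · rw [cell1 p 0 0 hB, cell2 p 0 0 hB, (exq_div hB).2, (exq_div hB).2]
      exact h00
    · rintro c ⟨hc, hP⟩ hne
      by_cases h1 : c.1.val % B = 0
      · have h2 : c.2.val % B ≠ 0 := by
          intro h2
          apply hne
          rw [← cell_of c, hc, h1, h2]
        have h3 : 0 < c.2.val := by
          rcases Nat.eq_zero_or_pos c.2.val with h | h
          · rw [h] at h2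
            simp at h2
          · exact h
        refine ⟨(c.1, ⟨c.2.val - 1, by have := c.2.2; omega⟩), ⟨?_, ?_⟩, ?_, ?_⟩
        · rw [← hc]
          apply Prod.ext
          · rfl
          · apply Fin.ext
            exact exq_pred hB h2
        · show P (c.1.val % B) ((c.2.val - 1) % B)
          have h4 := Nat.div_add_mod c.2.val B
          have h5 := Nat.mod_lt c.2.val hB
          have h6 : c.2.val - 1 = B * (c.2.val / B) + (c.2.val % B - 1) := by omega
          rw [h6, (exq_div (by omega)).2, h1]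
          rw [h1] at hP
          apply h01
          rwa [Nat.sub_add_cancel (by omega)]
        · refine Or.inl ⟨rfl, Or.inr ?_⟩
          show c.2.val - 1 + 1 = c.2.val
          omega
        · show c.1.val + (c.2.val - 1) < c.1.val + c.2.val
          omega
      · have h3 : 0 < c.1.val := by
          rcases Nat.eq_zero_or_pos c.1.val with h | h
          · rw [h] at h1
            simp at h1
          · exact h
        refine ⟨(⟨c.1.val - 1, by have := c.1.2; omega⟩, c.2), ⟨?_, ?_⟩, ?_, ?_⟩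
        · rw [← hc]
          apply Prod.ext
          · apply Fin.ext
            exact exq_pred hB h1
          · rfl
        · show P ((c.1.val - 1) % B) (c.2.val % B)
          have h4 := Nat.div_add_mod c.1.val B
          have h5 := Nat.mod_lt c.1.val hB
          have h6 : c.1.val - 1 = B * (c.1.val / B) + (c.1.val % B - 1) := by omega
          rw [h6, (exq_div (by omega)).2]
          apply h10
          rwa [Nat.sub_add_cancel (by omega)]
        · refine Or.inr ⟨rfl, Or.inr ?_⟩
          show c.1.val - 1 + 1 = c.1.val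
          omega
        · show c.1.val - 1 + c.2.val < c.1.val + c.2.val
          omega
  -- the sets `X` and `A`
  let X : Fin m × Fin m → Set (Fin n) := fun p =>
    {v | ∃ c ∈ {c | blk c = p ∧ (fun _ _ => True : ℕ → ℕ → Prop) (c.1.val % B) (c.2.val % B)},
      π v = some c}
  let A : Fin m × Fin m → Set (Fin n) := fun p =>
    {v | ∃ c ∈ {c | blk c = p ∧ (fun i j => i = 0 ∨ j = 0 : ℕ → ℕ → Prop) (c.1.val % B)
      (c.2.val % B)}, π v = some c}
  have hXc : ∀ p, (G.induce (X p)).Connected := fun p =>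
    exq_union hM _ (hconn p _ trivial (fun _ _ _ => trivial) (fun _ _ => trivial))
  have hAc : ∀ p, (G.induce (A p)).Connected := fun p =>
    exq_union hM _ (hconn p (fun i j => i = 0 ∨ j = 0) (Or.inl rfl) (fun i j h => Or.inr (by
      rcases h with h | h
      · omega
      · exact h)) (fun j _ => Or.inl rfl))
  have hAX : ∀ p, A p ⊆ X p := by
    rintro p v ⟨c, ⟨hc, -⟩, hv⟩
    exact ⟨c, ⟨hc, trivial⟩, hv⟩
  have hne : ∀ c, ∃ v, π v = some c := by
    intro c
    obtain ⟨⟨v, hv⟩⟩ := (hM.conn c).nonempty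
    exact ⟨v, hv⟩
  have hXcard : ∀ p, B * B ≤ (X p).ncard := by
    intro p
    choose g hg using hne
    let f : Fin B × Fin B → Fin n := fun ij => g (cell p ij.1.val ij.2.val)
    have hf : Function.Injective f := by
      intro x y hxy
      have h1 : cell p x.1.val x.2.val = cell p y.1.val y.2.val := by
        have h2 := (hg (cell p x.1.val x.2.val)).symm.trans
          ((congrArg π hxy).trans (hg (cell p y.1.val y.2.val)))
        exact Option.some.inj h2
      have h3 := congrArg (fun c => c.1.val) h1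
      have h4 := congrArg (fun c => c.2.val) h1
      simp only [cell1 p x.1.val x.2.val x.1.2, cell1 p y.1.val y.2.val y.1.2,
        cell2 p x.1.val x.2.val x.2.2, cell2 p y.1.val y.2.val y.2.2] at h3 h4
      exact Prod.ext (Fin.ext (by omega)) (Fin.ext (by omega))
    have h5 : (f '' Set.univ).ncard = B * B := by
      rw [Set.ncard_image_of_injective _ hf, Set.ncard_univ, Nat.card_eq_fintype_card,
        Fintype.card_prod, Fintype.card_fin]
    rw [← h5]
    apply Set.ncard_le_ncard _ (Set.toFinite _)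
    rintro _ ⟨ij, -, rfl⟩
    exact ⟨_, ⟨blk_cell p _ _ ij.1.2 ij.2.2, trivial⟩, hg _⟩
  have hAcard : ∀ p, (A p).ncard ≤ B * B := by
    intro p
    let cc : Bool × Fin B → Fin (B * m) × Fin (B * m) := fun x =>
      if x.1 then cell p x.2.val 0 else cell p 0 x.2.val
    have h1 : (A p).toFinset ⊆ (Finset.univ : Finset (Bool × Fin B)).biUnion
        (fun x => Finset.univ.filter (fun v : Fin n => π v = some (cc x))) := by
      intro v hv
      rw [Set.mem_toFinset] at hv
      obtain ⟨c, ⟨hc, h2⟩, hv⟩ := hv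
      rw [Finset.mem_biUnion]
      rcases h2 with h2 | h2
      · refine ⟨(false, ⟨c.2.val % B, Nat.mod_lt _ hB⟩), Finset.mem_univ _,
          Finset.mem_filter.mpr ⟨Finset.mem_univ _, ?_⟩⟩
        rw [hv]
        congr 1
        have h3 := cell_of c
        rw [hc, h2] at h3
        exact h3.symm
      · refine ⟨(true, ⟨c.1.val % B, Nat.mod_lt _ hB⟩), Finset.mem_univ _,
          Finset.mem_filter.mpr ⟨Finset.mem_univ _, ?_⟩⟩
        rw [hv]
        congr 1
        have h3 := cell_of c
        rw [hc, h2] at h3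
        exact h3.symm
    rw [Set.ncard_eq_toFinset_card']
    refine le_trans (Finset.card_le_card h1) (le_trans (Finset.card_biUnion_le_card_mul _ _ L ?_) ?_)
    · intro x _
      have h2 := hcard (cc x)
      rw [Set.ncard_eq_toFinset_card'] at h2
      refine le_trans (le_of_eq ?_) h2
      congr 1
      ext v
      simp
    · rw [Finset.card_univ, Fintype.card_prod, Fintype.card_bool, Fintype.card_fin]
      exact le_of_eq (by rw [hBdef]; ring)
  have hY : ∀ p, ∃ Y : Set (Fin n), A p ⊆ Y ∧ Y ⊆ X p ∧ (G.induce Y).Connected ∧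
      Y.ncard = B * B := fun p =>
    hGRW (Fin n) G (A p) (X p) (B * B) (hAX p) (hAc p) (hXc p) (hAcard p) (hXcard p)
  choose Y hAY hYX hYc hYcard using hY
  have hblk : ∀ p v, v ∈ Y p → ∃ c, blk c = p ∧ π v = some c := by
    intro p v hv
    obtain ⟨c, ⟨hc, -⟩, h1⟩ := hYX p hv
    exact ⟨c, hc, h1⟩
  have hdisj : ∀ p q v, v ∈ Y p → v ∈ Y q → p = q := by
    intro p q v hp hq
    obtain ⟨c, hc, h1⟩ := hblk p v hp
    obtain ⟨c', hc', h2⟩ := hblk q v hq
    rw [h1] at h2
    rw [← hc, ← hc', Option.some.inj h2]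
  -- the vertices
  let T : Finset (Fin n) := (Finset.univ : Finset (Fin m × Fin m)).biUnion fun p => (Y p).toFinset
  have hT : T.card = B * B * m ^ 2 := by
    rw [Finset.card_biUnion]
    · have h1 : ∀ p ∈ (Finset.univ : Finset (Fin m × Fin m)), ((Y p).toFinset).card = B * B := by
        intro p _
        rw [← Set.ncard_eq_toFinset_card']
        exact hYcard p
      rw [Finset.sum_congr rfl h1, Finset.sum_const, Finset.card_univ, Fintype.card_prod,
        Fintype.card_fin, smul_eq_mul]
      ring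
    · intro p _ q _ hpq
      rw [Function.onFun, Finset.disjoint_left]
      intro v hv hv'
      rw [Set.mem_toFinset] at hv hv'
      exact hpq (hdisj p q v hv hv')
  have hTY : ∀ v, v ∈ T ↔ ∃ p, v ∈ Y p := by
    intro v
    simp only [T, Finset.mem_biUnion, Finset.mem_univ, true_and, Set.mem_toFinset]
  let e : Fin (B * B * m ^ 2) ≃ T := (T.equivFinOfCardEq hT).symm
  have he : Function.Injective (fun a => (e a : Fin n)) := fun a b hab =>
    e.injective (Subtype.ext hab)
  have heY : ∀ a, ∃ p, (e a : Fin n) ∈ Y p := fun a => (hTY _).mp (e a).2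
  choose π' hπ' using heY
  have hsurj : ∀ p v, v ∈ Y p → ∃ a, (e a : Fin n) = v ∧ π' a = p := by
    intro p v hv
    have h1 : v ∈ T := (hTY v).mpr ⟨p, hv⟩
    refine ⟨e.symm ⟨v, h1⟩, by rw [Equiv.apply_symm_apply], ?_⟩
    apply hdisj _ _ v _ hv
    have h2 := hπ' (e.symm ⟨v, h1⟩)
    rwa [Equiv.apply_symm_apply] at h2
  have hπY : ∀ a p, π' a = p ↔ (e a : Fin n) ∈ Y p := by
    intro a p
    constructor
    · rintro rfl
      exact hπ' a
    · intro h1
      exact hdisj _ _ _ (hπ' a) h1
  let H : SimpleGraph (Fin (B * B * m ^ 2)) :=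
    { Adj := fun a b => G.Adj (e a) (e b)
      symm := ⟨fun a b hab => hab.symm⟩
      loopless := ⟨fun a ha => G.loopless.irrefl _ ha⟩ }
  refine ⟨H, π', hC _ n H G hG ⟨fun a => (e a : Fin n), he, fun a b hab => hab⟩, ⟨?_, ?_, ?_⟩, ?_⟩
  · intro p
    let ψ : {v | (fun v => some (π' v)) v = some p} ≃ Y p := Equiv.ofBijective
      (fun a => ⟨(e a.1 : Fin n), (hπY a.1 p).mp (Option.some.inj a.2)⟩)
      ⟨fun a b hab => Subtype.ext (he (Subtype.mk.inj hab)), fun v => by
        obtain ⟨a, ha, hb⟩ := hsurj p v.1 v.2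
        exact ⟨⟨a, congrArg some hb⟩, Subtype.ext ha⟩⟩
    let φ : (H.induce {v | (fun v => some (π' v)) v = some p}) ≃g (G.induce (Y p)) :=
      { toEquiv := ψ
        map_rel_iff' := by
          intro v w
          exact Iff.rfl }
    exact φ.connected_iff.mpr (hYc p)
  · intro u v huv
    refine ⟨π' u, π' v, rfl, rfl, ?_⟩
    obtain ⟨c, c', hc, hc', h1⟩ := hM.adj _ _ huv
    obtain ⟨d, hd, hd'⟩ := hblk _ _ (hπ' u)
    obtain ⟨d', hd1, hd2⟩ := hblk _ _ (hπ' v)
    rw [hc] at hd'
    rw [hc'] at hd2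
    obtain rfl := Option.some.inj hd'
    obtain rfl := Option.some.inj hd2
    rw [← hd, ← hd1]
    rcases h1 with h1 | h1
    · left
      rw [h1]
    · rcases h1 with ⟨h1, h2⟩ | ⟨h1, h2⟩
      · have h3 : (blk c).1 = (blk c').1 := by
          apply Fin.ext
          rw [blk1, blk1, h1]
        rcases h2 with h2 | h2
        · rcases exq_succ (B := B) c.2.val with h4 | h4
          · left
            refine Prod.ext h3 (Fin.ext ?_)
            rw [blk2, blk2, ← h2, h4]
          · right
            refine Or.inl ⟨h3, Or.inl ?_⟩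
            rw [blk2, blk2, ← h2, h4]
        · rcases exq_succ (B := B) c'.2.val with h4 | h4
          · left
            refine Prod.ext h3 (Fin.ext ?_)
            rw [blk2, blk2, ← h2, h4]
          · right
            refine Or.inl ⟨h3, Or.inr ?_⟩
            rw [blk2, blk2, ← h2, h4]
      · have h3 : (blk c).2 = (blk c').2 := by
          apply Fin.ext
          rw [blk2, blk2, h1]
        rcases h2 with h2 | h2
        · rcases exq_succ (B := B) c.1.val with h4 | h4
          · left
            refine Prod.ext (Fin.ext ?_) h3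
            rw [blk1, blk1, ← h2, h4]
          · right
            refine Or.inr ⟨h3, Or.inl ?_⟩
            rw [blk1, blk1, ← h2, h4]
        · rcases exq_succ (B := B) c'.1.val with h4 | h4
          · left
            refine Prod.ext (Fin.ext ?_) h3
            rw [blk1, blk1, ← h2, h4]
          · right
            refine Or.inr ⟨h3, Or.inr ?_⟩
            rw [blk1, blk1, ← h2, h4]
  · -- neighbouring blocks
    have hcore : ∀ p i j, i < B → j < B → (i = 0 ∨ j = 0) → ∀ v, π v = some (cell p i j) →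
        v ∈ Y p := by
      intro p i j hi hj hij v hv
      apply hAY p
      refine ⟨cell p i j, ⟨blk_cell p i j hi hj, ?_⟩, hv⟩
      show (cell p i j).1.val % B = 0 ∨ (cell p i j).2.val % B = 0
      rw [cell1 p i j hi, cell2 p i j hj, (exq_div hi).2, (exq_div hj).2]
      exact hij
    have hone : ∀ p q i j i' j', i < B → j < B → i' < B → j' < B → (i = 0 ∨ j = 0) →
        (i' = 0 ∨ j' = 0) → (grid (B * m)).Adj (cell p i j) (cell q i' j') →
        ∃ u v, some (π' u) = some p ∧ some (π' v) = some q ∧ H.Adj u v := by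
      intro p q i j i' j' hi hj hi' hj' h1 h2 hadj
      obtain ⟨u, v, hu, hv, huv⟩ := hM.one _ _ hadj
      obtain ⟨a, ha, ha'⟩ := hsurj p u (hcore p i j hi hj h1 u hu)
      obtain ⟨b, hb, hb'⟩ := hsurj q v (hcore q i' j' hi' hj' h2 v hv)
      refine ⟨a, b, congrArg some ha', congrArg some hb', ?_⟩
      show G.Adj (e a) (e b)
      rw [ha, hb]
      exact huv
    have hBm : ∀ a b : ℕ, a + 1 = b → B * a + (B - 1) + 1 = B * b + 0 := by
      rintro a b rfl
      have : B * (a + 1) = B * a + B := by ring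
      omega
    rintro p q (⟨h1, h2 | h2⟩ | ⟨h1, h2 | h2⟩)
    · refine hone p q 0 (B - 1) 0 0 hB (by omega) hB hB (Or.inl rfl) (Or.inl rfl) (Or.inl ⟨?_, Or.inl ?_⟩)
      · apply Fin.ext
        rw [cell1 _ _ _ hB, cell1 _ _ _ hB, h1]
      · rw [cell2 _ _ _ (by omega), cell2 _ _ _ hB]
        exact hBm _ _ h2
    · refine hone p q 0 0 0 (B - 1) hB hB hB (by omega) (Or.inl rfl) (Or.inl rfl) (Or.inl ⟨?_, Or.inr ?_⟩)
      · apply Fin.ext
        rw [cell1 _ _ _ hB, cell1 _ _ _ hB, h1]
      · rw [cell2 _ _ _ hB, cell2 _ _ _ (by omega)]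
        exact hBm _ _ h2
    · refine hone p q (B - 1) 0 0 0 (by omega) hB hB hB (Or.inr rfl) (Or.inl rfl) (Or.inr ⟨?_, Or.inl ?_⟩)
      · apply Fin.ext
        rw [cell2 _ _ _ hB, cell2 _ _ _ hB, h1]
      · rw [cell1 _ _ _ (by omega), cell1 _ _ _ hB]
        exact hBm _ _ h2
    · refine hone p q 0 0 (B - 1) 0 hB hB (by omega) hB (Or.inl rfl) (Or.inr rfl) (Or.inr ⟨?_, Or.inr ?_⟩)
      · apply Fin.ext
        rw [cell2 _ _ _ hB, cell2 _ _ _ hB, h1]
      · rw [cell1 _ _ _ hB, cell1 _ _ _ (by omega)]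
        exact hBm _ _ h2
  · intro p
    have h1 : (fun a => (e a : Fin n)) '' {v | π' v = p} = Y p := by
      ext v
      constructor
      · rintro ⟨a, ha, rfl⟩
        exact (hπY a p).mp ha
      · intro hv
        obtain ⟨a, ha, hb⟩ := hsurj p v hv
        exact ⟨a, hb, ha⟩
    rw [← Set.ncard_image_of_injective _ he, h1]
    exact hYcard p

end Pool.Agent.H88.MF
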